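import Mathlib

/-!
# A graceful connected bipartite graph without a near alpha-valuation

If all degrees of a graph with `n` edges are divisible by `4` and the graph has a near
alpha-valuation, then `n (n + 1) / 2` is divisible by `4`. The complete bipartite graph `K_{5,5}`
minus a perfect matching is `4`-regular with `20` edges, and it is graceful.
-/

set_option autoImplicit false

namespace Pool.Agent.Results.MP_cfde94_co.CrownGraph

open Finset

section

variable {V : Type} [Fintype V] [DecidableEq V] (G : SimpleGraph V) [DecidableRel G.Adj]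

/-- The label of an edge `uv` is `|b u - b v|`. -/
def edgeLabel {V : Type} (b : V → ℕ) : Sym2 V → ℕ :=
  Sym2.lift ⟨fun u v => max (b u) (b v) - min (b u) (b v), fun u v => by
    change max (b u) (b v) - min (b u) (b v) = max (b v) (b u) - min (b v) (b u)
    rw [max_comm, min_comm]⟩

/-- `b` is a beta-valuation (graceful labelling) of `G`: it is an injective map of the vertices to
`{0, 1, ..., n}`, where `n` is the number of edges, and the edge labels are `1, 2, ..., n`, each
occurring once. -/
def IsBetaValuation (b : V → ℕ) : Prop :=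
  Function.Injective b ∧ (∀ v, b v ≤ G.edgeFinset.card) ∧
    Set.BijOn (edgeLabel b) G.edgeSet (Set.Icc 1 G.edgeFinset.card)

/-- `b` is a near alpha-valuation of `G`: it is a beta-valuation, and the vertices can be divided
into a set `S` and its complement in such a way that the label of each vertex of `S` is less than
those of all its neighbours, and the label of each vertex outside `S` is greater than those of all
its neighbours. -/
def IsNearAlphaValuation (b : V → ℕ) : Prop :=
  IsBetaValuation G b ∧ ∃ S : Set V,
    (∀ v ∈ S, ∀ u, G.Adj v u → b v < b u) ∧ (∀ v, v ∉ S → ∀ u, G.Adj v u → b u < b v)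

theorem sum_incidence (f : V → ℤ) :
    ∑ e ∈ G.edgeFinset, ∑ v, (if v ∈ e then f v else 0) = ∑ v, (G.degree v : ℤ) * f v := by
  rw [sum_comm]
  refine sum_congr rfl fun v _ => ?_
  rw [← sum_filter, sum_const, nsmul_eq_mul, ← G.card_incidenceFinset_eq_degree,
    G.incidenceFinset_eq_filter]

theorem sum_mem_edge (f : V → ℤ) {u w : V} (h : u ≠ w) :
    ∑ v, (if v ∈ s(u, w) then f v else 0) = f u + f w := by
  have : ∀ v, (if v ∈ s(u, w) then f v else 0) =
      (if v = u then f v else 0) + (if v = w then f v else 0) := by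
    intro v
    by_cases h1 : v = u
    · subst h1
      simp [h]
    · by_cases h2 : v = w
      · subst h2
        simp [h1]
      · simp [h1, h2]
  rw [sum_congr rfl fun v _ => this v, sum_add_distrib]
  simp

theorem four_dvd {b : V → ℕ} (hb : IsNearAlphaValuation G b) (h4 : ∀ v, 4 ∣ G.degree v) :
    4 ∣ ∑ k ∈ Icc 1 G.edgeFinset.card, k := by
  classical
  obtain ⟨⟨hinj, hle, hbij⟩, S, hS1, hS2⟩ := hb
  have h1 : ∑ e ∈ G.edgeFinset, edgeLabel b e = ∑ k ∈ Icc 1 G.edgeFinset.card, k := by
    refine sum_bij (fun e _ => edgeLabel b e) ?_ ?_ ?_ ?_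
    · intro e he
      have := hbij.1 (SimpleGraph.mem_edgeFinset.1 he)
      rw [mem_Icc]
      exact this
    · intro e he e' he' h
      exact hbij.2.1 (SimpleGraph.mem_edgeFinset.1 he) (SimpleGraph.mem_edgeFinset.1 he') h
    · intro k hk
      rw [mem_Icc] at hk
      obtain ⟨e, he, hek⟩ := hbij.2.2 (show k ∈ Set.Icc 1 G.edgeFinset.card from hk)
      exact ⟨e, SimpleGraph.mem_edgeFinset.2 he, hek⟩
    · intro e _
      rfl
  set f : V → ℤ := fun v => if v ∈ S then -(b v : ℤ) else b v with hf
  have h2 : ∀ e ∈ G.edgeFinset, ((edgeLabel b e : ℕ) : ℤ) =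
      ∑ v, (if v ∈ e then f v else 0) := by
    intro e
    induction e using Sym2.ind with
    | _ u w =>
      intro he
      rw [SimpleGraph.mem_edgeFinset, SimpleGraph.mem_edgeSet] at he
      rw [sum_mem_edge f he.ne]
      change (((max (b u) (b w) - min (b u) (b w) : ℕ)) : ℤ) = f u + f w
      by_cases hu : u ∈ S
      · have hlt := hS1 u hu w he
        have hw : w ∉ S := fun hw => absurd (hS1 w hw u he.symm) (by omega)
        simp only [hf, if_pos hu, if_neg hw]
        omega
      · have hlt := hS2 u hu w he
        have hw : w ∈ S := by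
          by_contra hw
          exact absurd (hS2 w hw u he.symm) (by omega)
        simp only [hf, if_neg hu, if_pos hw]
        omega
  have h3 : ((∑ k ∈ Icc 1 G.edgeFinset.card, k : ℕ) : ℤ) = ∑ v, (G.degree v : ℤ) * f v := by
    rw [← h1, Nat.cast_sum, sum_congr rfl h2, sum_incidence]
  have h5 : (4 : ℤ) ∣ ((∑ k ∈ Icc 1 G.edgeFinset.card, k : ℕ) : ℤ) := by
    rw [h3]
    refine dvd_sum fun v _ => Dvd.dvd.mul_right ?_ _
    exact_mod_cast h4 v
  exact_mod_cast h5

end

/-- The complete bipartite graph `K_{5,5}` minus a perfect matching. -/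
def crown : SimpleGraph (Fin 5 × Fin 2) where
  Adj p q := p.1 ≠ q.1 ∧ p.2 ≠ q.2
  symm := ⟨fun _ _ h => ⟨h.1.symm, h.2.symm⟩⟩
  loopless := ⟨fun _ h => h.1 rfl⟩

instance : DecidableRel crown.Adj := fun p q => inferInstanceAs (Decidable (p.1 ≠ q.1 ∧ p.2 ≠ q.2))

/-- A graceful labelling of `crown`. -/
def lab (p : Fin 5 × Fin 2) : ℕ :=
  if p.2 = 0 then ![0, 4, 15, 11, 6] p.1 else ![14, 17, 18, 19, 20] p.1

theorem crown_degree : ∀ v, crown.degree v = 4 := by decide

theorem crown_card : crown.edgeFinset.card = 20 := by
  have h := crown.sum_degrees_eq_twice_card_edges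
  rw [sum_congr rfl fun v _ => crown_degree v] at h
  simp at h
  omega

theorem lab_label (p q : Fin 5 × Fin 2) :
    edgeLabel lab s(p, q) = max (lab p) (lab q) - min (lab p) (lab q) := rfl

theorem crown_beta : IsBetaValuation crown lab := by
  refine ⟨by decide, ?_, ?_, ?_, ?_⟩
  · rw [crown_card]
    decide
  · intro e
    induction e using Sym2.ind with
    | _ p q =>
      rw [SimpleGraph.mem_edgeSet, crown_card, lab_label]
      revert p q
      decide
  · intro e
    induction e using Sym2.ind with
    | _ p q =>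
      intro he e'
      induction e' using Sym2.ind with
      | _ p' q' =>
        revert he
        rw [SimpleGraph.mem_edgeSet, SimpleGraph.mem_edgeSet, lab_label, lab_label]
        revert p q p' q'
        decide
  · intro k hk
    rw [crown_card] at hk
    have key : ∀ k ∈ Icc 1 20, ∃ p q, crown.Adj p q ∧
        max (lab p) (lab q) - min (lab p) (lab q) = k := by decide
    obtain ⟨p, q, h, hk'⟩ := key k (mem_Icc.2 hk)
    exact ⟨s(p, q), h, hk'⟩

theorem crown_connected : crown.Connected := by
  rw [SimpleGraph.connected_iff_exists_forall_reachable]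
  refine ⟨(0, 0), fun v => ?_⟩
  have key : ∀ v : Fin 5 × Fin 2, v = (0, 0) ∨ crown.Adj (0, 0) v ∨
      (∃ w, crown.Adj (0, 0) w ∧ crown.Adj w v) ∨
      ∃ w x, crown.Adj (0, 0) w ∧ crown.Adj w x ∧ crown.Adj x v := by decide
  rcases key v with rfl | h | ⟨w, h1, h2⟩ | ⟨w, x, h1, h2, h3⟩
  · exact SimpleGraph.Reachable.refl _
  · exact h.reachable
  · exact h1.reachable.trans h2.reachable
  · exact (h1.reachable.trans h2.reachable).trans h3.reachable

/-- There is a connected bipartite graph (in which all degrees are `4`) with a beta-valuation but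
without a near alpha-valuation. Moreover no graph in which all degrees are divisible by `4` and
for which `1 + 2 + ... + n`, `n` being the number of edges, is not divisible by `4`, has a near
alpha-valuation. -/
theorem result :
    (∃ (V : Type) (_ : Fintype V) (_ : DecidableEq V) (G : SimpleGraph V)
      (_ : DecidableRel G.Adj), G.Connected ∧ G.IsBipartite ∧ (∀ v, G.degree v = 4) ∧
        (∃ b, IsBetaValuation G b) ∧ ¬ ∃ b, IsNearAlphaValuation G b) ∧
    (∀ (V : Type) [Fintype V] [DecidableEq V] (G : SimpleGraph V) [DecidableRel G.Adj],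
      (∀ v, 4 ∣ G.degree v) → ¬ 4 ∣ ∑ k ∈ Icc 1 G.edgeFinset.card, k →
        ¬ ∃ b, IsNearAlphaValuation G b) := by
  refine ⟨⟨Fin 5 × Fin 2, inferInstance, inferInstance, crown, inferInstance, crown_connected,
    ?_, crown_degree, ⟨lab, crown_beta⟩, ?_⟩, ?_⟩
  · exact ⟨⟨fun p => p.2, fun {p q} h => h.2⟩⟩
  · rintro ⟨b, hb⟩
    have := four_dvd crown hb (fun v => by rw [crown_degree])
    rw [crown_card] at this
    revert this
    decide
  · rintro V _ _ G _ h4 hn ⟨b, hb⟩
    exact hn (four_dvd G hb h4)

end Pool.Agent.Results.MP_cfde94_co.CrownGraph
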